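import Pool.Agent.Helper35.PI2.St

namespace Helper93.PI2

open Helper35.PI Helper35.PI2
open scoped ContDiff Manifold Topology ENNReal BigOperators
open MeasureTheory Set Filter

theorem tsum_liminf_le (a : ℕ → ℕ → ℝ≥0∞) :
    ∑' i, liminf (fun k => a i k) atTop ≤ liminf (fun k => ∑' i, a i k) atTop := by
  have h := lintegral_liminf_le' (u := (atTop : Filter ℕ)) (μ := (Measure.count : Measure ℕ)) (f := fun k i => a i k)
    (fun k => (measurable_of_countable _).aemeasurable)
  simpa [lintegral_count] using h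

theorem cont_slice {E : Type} [TopologicalSpace E] {T : Set E} {b : E → ℝ → ℝ}
    (hb : ContinuousOn (fun z : E × ℝ => b z.1 z.2) (T ×ˢ Iio 0)) {s : ℝ} (hs : s < 0) :
    ContinuousOn (fun y => b y s) T :=
  ContinuousOn.comp (g := fun z : E × ℝ => b z.1 z.2) (f := fun y => (y, s)) hb
    (continuousOn_id.prodMk continuousOn_const) (fun y hy => ⟨hy, hs⟩)

theorem tendsto_slice {E : Type} [TopologicalSpace E] {T : Set E} {b : E → ℝ → ℝ}
    (hb : ContinuousOn (fun z : E × ℝ => b z.1 z.2) (T ×ˢ Iio 0)) {t : ℝ} (ht : t < 0)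
    {u : ℕ → ℝ} (hu : Tendsto u atTop (𝓝 t)) (hun : ∀ k, u k < 0) {y : E} (hy : y ∈ T) :
    Tendsto (fun k => b y (u k)) atTop (𝓝 (b y t)) := by
  have h1 : Tendsto (fun z : E × ℝ => b z.1 z.2) (𝓝[T ×ˢ Iio 0] (y, t)) (𝓝 (b y t)) := hb (y, t) ⟨hy, ht⟩
  have h2 : Tendsto (fun k : ℕ => ((y, u k) : E × ℝ)) atTop (𝓝[T ×ˢ Iio 0] (y, t)) := by
    refine tendsto_nhdsWithin_iff.2 ⟨tendsto_const_nhds.prodMk_nhds hu, Eventually.of_forall fun k => ?_⟩
    exact Set.mk_mem_prod hy (hun k)
  exact h1.comp h2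

theorem core {E : Type} [TopologicalSpace E] [MeasurableSpace E] [BorelSpace E] (μ : Measure E)
    {T : Set E} (hTo : IsOpen T) {a : E → ℝ} {b s : E → ℝ → ℝ} (ha : ContinuousOn a T)
    (hb : ContinuousOn (fun z : E × ℝ => b z.1 z.2) (T ×ˢ Iio 0))
    (hs : ContinuousOn (fun z : E × ℝ => s z.1 z.2) (T ×ˢ Iio 0)) {t : ℝ} (ht : t < 0)
    {u : ℕ → ℝ} (hu : Tendsto u atTop (𝓝 t)) (hun : ∀ k, u k < 0) :
    (∫⁻ y in T, ENNReal.ofReal (a y) * ENNReal.ofReal (b y t) * ENNReal.ofReal (s y t) ∂μ) ≤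
      liminf (fun k => ∫⁻ y in T, ENNReal.ofReal (a y) * ENNReal.ofReal (b y (u k)) *
        ENNReal.ofReal (s y (u k)) ∂μ) atTop := by
  have hTm : MeasurableSet T := hTo.measurableSet
  have m1 : AEMeasurable a (μ.restrict T) := ha.aemeasurable hTm
  have m2 : ∀ k, AEMeasurable (fun y => b y (u k)) (μ.restrict T) := fun k =>
    (cont_slice hb (hun k)).aemeasurable hTm
  have m3 : ∀ k, AEMeasurable (fun y => s y (u k)) (μ.restrict T) := fun k =>
    (cont_slice hs (hun k)).aemeasurable hTm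
  refine le_trans ?_ (lintegral_liminf_le' (fun k =>
      (m1.ennreal_ofReal.mul (m2 k).ennreal_ofReal).mul (m3 k).ennreal_ofReal))
  refine le_of_eq (setLIntegral_congr_fun hTm ?_)
  intro y hy
  have t2 := tendsto_slice hb ht hu hun hy
  have t3 := tendsto_slice hs ht hu hun hy
  have t4 : Tendsto (fun k => ENNReal.ofReal (a y) * ENNReal.ofReal (b y (u k)) *
      ENNReal.ofReal (s y (u k))) atTop
      (𝓝 (ENNReal.ofReal (a y) * ENNReal.ofReal (b y t) * ENNReal.ofReal (s y t))) := by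
    refine ENNReal.Tendsto.mul ?_ (Or.inr ENNReal.ofReal_ne_top)
      (ENNReal.tendsto_ofReal t3) (Or.inr (ENNReal.mul_ne_top ENNReal.ofReal_ne_top ENNReal.ofReal_ne_top))
    exact ENNReal.Tendsto.const_mul (ENNReal.tendsto_ofReal t2) (Or.inr ENNReal.ofReal_ne_top)
  exact t4.liminf_eq.symm

theorem hLS (hEB : StEB) (hI2 : StI2) : StLS := by
  intro n N M _ _ _ F hF c χ hχ g hg t ht u hu hun
  have key : ∀ i : ℕ, (∫⁻ y in (chartAt (EE n) (c i)).target,
      ENNReal.ofReal (χ i ((chartAt (EE n) (c i)).symm y)) *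
        ENNReal.ofReal (g ((chartAt (EE n) (c i)).symm y) t) *
        ENNReal.ofReal (sgm (loc (n := n) F (c i) t) y)) ≤
      liminf (fun k => ∫⁻ y in (chartAt (EE n) (c i)).target,
      ENNReal.ofReal (χ i ((chartAt (EE n) (c i)).symm y)) *
        ENNReal.ofReal (g ((chartAt (EE n) (c i)).symm y) (u k)) *
        ENNReal.ofReal (sgm (loc (n := n) F (c i) (u k)) y)) atTop := by
    intro i
    have hsymm : ContinuousOn (chartAt (EE n) (c i)).symm (chartAt (EE n) (c i)).target :=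
      (chartAt (EE n) (c i)).continuousOn_symm
    have ha : ContinuousOn (fun y => χ i ((chartAt (EE n) (c i)).symm y)) (chartAt (EE n) (c i)).target :=
      (hχ.smooth i).continuous.comp_continuousOn hsymm
    have hb : ContinuousOn (fun z : EE n × ℝ => g ((chartAt (EE n) (c i)).symm z.1) z.2)
        ((chartAt (EE n) (c i)).target ×ˢ Iio 0) := by
      refine ContinuousOn.comp (g := fun z : M × ℝ => g z.1 z.2)
        (f := fun z : EE n × ℝ => ((chartAt (EE n) (c i)).symm z.1, z.2)) hg ?_ ?_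
      · exact (hsymm.comp continuousOn_fst (fun z hz => hz.1)).prodMk continuousOn_snd
      · intro z hz
        exact Set.mk_mem_prod (mem_univ _) hz.2
    have hs := ((hEB n N M F hF 1 one_pos).2.2.2 (c i)).2.2
    exact core (volume : Measure (EE n)) (chartAt (EE n) (c i)).open_target
      (a := fun y => χ i ((chartAt (EE n) (c i)).symm y))
      (b := fun y s => g ((chartAt (EE n) (c i)).symm y) s)
      (s := fun y s => sgm (loc (n := n) F (c i) s) y) ha hb hs ht hu hun
  refine le_trans (ENNReal.tsum_le_tsum key) ?_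
  exact tsum_liminf_le _

end Helper93.PI2
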